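import Pool.Agent.H875.PL.Orb3

/-!
# The Bogomolov-Miyaoka-Yau inequality for symplectic coverings of the plane branched along pseudolines

An arrangement of pseudolines in the real projective plane is the real part of an arrangement of symplectic lines in the
complex projective plane (Ruberman and Starkston). The Galois coverings of the complex projective plane which are
ramified of order `n` over all these symplectic lines, and of orders `m P` over the exceptional curves of the blow-up
of the points `P` of multiplicity at least three, are closed symplectic four-manifolds. If the arrangement is not
stretchable then they are not given by an arrangement of complex lines, and the inequality of Bogomolov, Miyaoka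
and Yau for algebraic surfaces does not apply.

The theorem: `3 σ ≤ e` (that is, `c_1 ^ 2 ≤ 3 c_2`) for all these coverings with `n ≥ 2` and arbitrary `m P ≥ 2`,
provided that the covering is not ruled by the lines through a point, that is, the orbifold Euler characteristic
`1 + 1 / m P - (1 - 1 / n) (k - mul P)` is not positive, for all points `P` of multiplicity at least three (this
is automatic if no point is on more than `k - 3` pseudolines).

The proof is combinatorial. Besides Melchior's inequality it uses a new inequality for arrangements of `k` pseudolines in
which no point is on more than `k - 3` of them, `t_2 + t_3 ≥ 7 + ∑ (2 r - 7) t_r` (the sum is over `r ≥ 4`), which is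
proved by a local count of the flags (`Arrangement.star`). For `n = 2` it also uses sums of squares over the pseudolines
(`Arrangement.line_squares`); the result is `t_2 + t_3 > k + (5 / 4) t_5 + ∑ (2 r - 9) t_r` (the sum is over `r ≥ 6`,
`Arrangement.full_pos`).
-/

set_option autoImplicit false

namespace Pool.Agent.Results.MP_872606_gt.PseudolineCoverings

open Pool.Agent.H875.PL

/-- **The Bogomolov-Miyaoka-Yau inequality for coverings branched along pseudolines.** -/
theorem result {k : ℕ} {Φ : Type} [Fintype Φ] [DecidableEq Φ] (A : Arrangement k Φ) (hk : 3 ≤ k) {n : ℕ}
    (hn : 2 ≤ n) {m : Finset Φ → ℕ} (hm : A.NotRuled n m) {e σ : ℤ} (h : A.OrbCovering n m e σ) : 3 * σ ≤ e :=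
  (A.orb_bmy_all hk hn hm h).1

end Pool.Agent.Results.MP_872606_gt.PseudolineCoverings
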